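import Pool.Agent.Helper74.OKA.St.B3bcd
import Pool.Agent.Helper74.OKA.St.B4
import Pool.Agent.Helper74.OKA.St.B5
import Pool.Agent.Helper74.OKA.St.C4

set_option autoImplicit false

open Set Metric Topology Module
open scoped Manifold ContDiff

namespace Pool.Agent.Helper74.OKA.P

open Pool.Agent.Helper74.OKA

universe u

variable (F : Type) [NormedAddCommGroup F] [NormedSpace ℂ F] [FiniteDimensional ℂ F]
  {Y : Type u} [MetricSpace Y] [ChartedSpace F Y] [IsManifold 𝓘(ℂ, F) 1 Y]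

/-- the empty set -/
theorem approx_empty {E : Type} [NormedAddCommGroup E] [NormedSpace ℂ E] :
    Approx F Y (∅ : Set E) := by
  intro U _ _
  refine ⟨∅, isOpen_empty, subset_rfl, empty_subset _, fun f _ ε _ => ?_⟩
  exact ⟨fun _ => f 0, fun _ => mdifferentiableAt_const, fun z hz => absurd hz (notMem_empty z)⟩

theorem finrank_image_le {E E' : Type} [NormedAddCommGroup E] [NormedSpace ℂ E]
    [FiniteDimensional ℂ E] [NormedAddCommGroup E'] [NormedSpace ℂ E'] (i : E →L[ℂ] E')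
    (S : Set E) : finrank ℝ (vectorSpan ℝ (i '' S)) ≤ finrank ℝ (vectorSpan ℝ S) := by
  have h : vectorSpan ℝ (i '' S) =
      (vectorSpan ℝ S).map (i.restrictScalars ℝ : E →L[ℝ] E').toLinearMap :=
    (AffineMap.vectorSpan_image_eq_submodule_map
      (i.restrictScalars ℝ : E →L[ℝ] E').toLinearMap.toAffineMap).symm
  rw [h]
  exact Submodule.finrank_map_le _ _

theorem finrank_slice {E : Type} [NormedAddCommGroup E] [NormedSpace ℂ E]
    [FiniteDimensional ℂ E] (V : Submodule ℝ E) (x₀ : E) (S : Set E)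
    (hS : ∀ x ∈ S, x - x₀ ∈ V) (l : E →L[ℝ] ℝ) (c : ℝ) (hc : l x₀ < c) (hl : ∀ x ∈ S, l x = c)
    (hne : S.Nonempty) : finrank ℝ (vectorSpan ℝ S) < finrank ℝ V := by
  refine Submodule.finrank_lt_finrank_of_lt ?_
  have h1 : vectorSpan ℝ S ≤ V ⊓ LinearMap.ker l.toLinearMap := by
    rw [vectorSpan_def, Submodule.span_le]
    rintro _ ⟨x, hx, y, hy, rfl⟩
    refine ⟨?_, ?_⟩
    · have : x - y = (x - x₀) - (y - x₀) := by abel
      show x - y ∈ V
      rw [this]
      exact V.sub_mem (hS x hx) (hS y hy)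
    · show l (x - y) = 0
      rw [map_sub, hl x hx, hl y hy, sub_self]
  refine lt_of_le_of_lt h1 (lt_of_le_of_ne inf_le_left fun h => ?_)
  obtain ⟨x, hx⟩ := hne
  have h2 : x - x₀ ∈ V ⊓ LinearMap.ker l.toLinearMap := by
    rw [h]
    exact hS x hx
  have h3 : l (x - x₀) = 0 := h2.2
  rw [map_sub, hl x hx] at h3
  linarith

theorem convex_le {E : Type} [NormedAddCommGroup E] [NormedSpace ℂ E] (l : E →L[ℝ] ℝ) (c : ℝ) :
    Convex ℝ {y : E | l y ≤ c} := convex_halfSpace_le l.toLinearMap.isLinear c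

theorem convex_eq {E : Type} [NormedAddCommGroup E] [NormedSpace ℂ E] (l : E →L[ℝ] ℝ) (c : ℝ) :
    Convex ℝ {y : E | l y = c} := convex_hyperplane l.toLinearMap.isLinear c

theorem exists_halfspaces {E : Type} [NormedAddCommGroup E] [NormedSpace ℂ E] (X : Set E)
    (hX : IsCompact X) (hXc : Convex ℝ X) (T : Set E) (hT : IsCompact T) (hXT : Disjoint X T) :
    ∃ L : List ((E →L[ℝ] ℝ) × ℝ), (∀ p ∈ L, ∀ x ∈ X, p.1 x < p.2) ∧
      ∀ y ∈ T, ∃ p ∈ L, p.2 < p.1 y := by
  refine hT.induction_on (p := fun T => ∃ L : List ((E →L[ℝ] ℝ) × ℝ),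
    (∀ p ∈ L, ∀ x ∈ X, p.1 x < p.2) ∧ ∀ y ∈ T, ∃ p ∈ L, p.2 < p.1 y) ?_ ?_ ?_ ?_
  · exact ⟨[], by simp, by simp⟩
  · rintro s t hst ⟨L, h1, h2⟩
    exact ⟨L, h1, fun y hy => h2 y (hst hy)⟩
  · rintro s t ⟨L, h1, h2⟩ ⟨L', h1', h2'⟩
    refine ⟨L ++ L', ?_, ?_⟩
    · intro p hp
      rcases List.mem_append.1 hp with hp | hp
      · exact h1 p hp
      · exact h1' p hp
    · rintro y (hy | hy)
      · obtain ⟨p, hp, hp'⟩ := h2 y hy
        exact ⟨p, List.mem_append.2 (Or.inl hp), hp'⟩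
      · obtain ⟨p, hp, hp'⟩ := h2' y hy
        exact ⟨p, List.mem_append.2 (Or.inr hp), hp'⟩
  · intro y hy
    have hyX : y ∉ X := fun h => (Set.disjoint_left.1 hXT h) hy
    obtain ⟨l, c, h1, h2⟩ := geometric_hahn_banach_closed_point hXc hX.isClosed hyX
    refine ⟨{z | c < l z}, ?_, [(l, c)], ?_, ?_⟩
    · exact mem_nhdsWithin_of_mem_nhds ((isOpen_lt continuous_const l.continuous).mem_nhds h2)
    · intro p hp x hx
      rw [List.mem_singleton] at hp
      subst hp
      exact h1 x hx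
    · intro z hz
      exact ⟨(l, c), List.mem_singleton.2 rfl, hz⟩

theorem approx_aux (hB : BAP F Y) (hSp : HasSprays F Y) (d : ℕ) :
    ∀ (E : Type) [NormedAddCommGroup E] [NormedSpace ℂ E] [FiniteDimensional ℂ E] (X : Set E),
      IsCompact X → Convex ℝ X → finrank ℝ (vectorSpan ℝ X) = d → Approx F Y X := by
  induction d using Nat.strong_induction_on with
  | _ d ih =>
  intro E _ _ _ X hX hXc hd
  rcases X.eq_empty_or_nonempty with rfl | ⟨x₀, hx₀⟩
  · exact approx_empty F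
  haveI : ProperSpace E := FiniteDimensional.proper ℂ E
  set V : Submodule ℝ E := vectorSpan ℝ X with hV
  obtain ⟨R, hR⟩ := hX.isBounded.exists_norm_le
  obtain ⟨D, hDK, hDc, hDV, hDB, hDR⟩ := exists_ballLike V (R + ‖x₀‖)
  set D' : Set E := (fun z => ContinuousLinearEquiv.refl ℂ E z + x₀) '' D with hD'
  have hD'K : IsCompact D' := hDK.image (by fun_prop)
  have hD'c : Convex ℝ D' := by
    have := hDc.translate x₀
    convert this using 1
    rw [hD']
    refine image_congr fun z _ => ?_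
    rw [add_comm]
    rfl
  have hD'B : BallLike D' := hDB.image _ _
  have hD'A : Approx F Y D' := approx_of_ballLike F Y hB hD'K hD'B
  have hD'V : ∀ x ∈ D', x - x₀ ∈ V := by
    rintro _ ⟨z, hz, rfl⟩
    show z + x₀ - x₀ ∈ V
    rw [add_sub_cancel_right]
    exact hDV hz
  have hXD' : X ⊆ D' := by
    intro x hx
    refine ⟨x - x₀, hDR _ ?_ ?_, ?_⟩
    · exact vsub_mem_vectorSpan ℝ hx hx₀
    · exact (norm_sub_le _ _).trans (add_le_add (hR x hx) le_rfl)
    · show x - x₀ + x₀ = x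
      rw [sub_add_cancel]
  -- cutting
  have key : ∀ (L : List ((E →L[ℝ] ℝ) × ℝ)), (∀ p ∈ L, p.1 x₀ < p.2) → ∀ A : Set E, A ⊆ D' →
      IsCompact A → Convex ℝ A → Approx F Y A →
      Approx F Y (A ∩ {y | ∀ p ∈ L, p.1 y ≤ p.2}) := by
    intro L
    induction L with
    | nil =>
      intro _ A _ _ _ hA
      have : A ∩ {y | ∀ p ∈ ([] : List ((E →L[ℝ] ℝ) × ℝ)), p.1 y ≤ p.2} = A := by
        ext y
        simp
      rwa [this]
    | cons p L ihL =>
      intro hL A hAD hAK hAc hA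
      have hp := hL p List.mem_cons_self
      have hS : Approx F Y ((A ∩ {z | p.1 z = p.2}) ×ˢ {(0 : F)}) := by
        have himg : (A ∩ {z | p.1 z = p.2}) ×ˢ {(0 : F)} =
            (ContinuousLinearMap.inl ℂ E F) '' (A ∩ {z | p.1 z = p.2}) := by
          ext ⟨z, s⟩
          simp only [mem_prod, mem_singleton_iff, mem_image, ContinuousLinearMap.inl_apply,
            Prod.mk.injEq]
          constructor
          · rintro ⟨h1, h2⟩
            exact ⟨z, h1, rfl, h2.symm⟩
          · rintro ⟨w, h1, rfl, rfl⟩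
            exact ⟨h1, rfl⟩
        rw [himg]
        rcases (A ∩ {z | p.1 z = p.2}).eq_empty_or_nonempty with he | hne
        · rw [he, image_empty]
          exact approx_empty F
        · have hSK : IsCompact (A ∩ {z | p.1 z = p.2}) :=
            hAK.inter_right (isClosed_eq p.1.continuous continuous_const)
          have hSc : Convex ℝ (A ∩ {z | p.1 z = p.2}) := hAc.inter (convex_eq p.1 p.2)
          have hlt : finrank ℝ (vectorSpan ℝ
              ((ContinuousLinearMap.inl ℂ E F) '' (A ∩ {z | p.1 z = p.2}))) < d := by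
            refine lt_of_le_of_lt (finrank_image_le _ _) ?_
            rw [← hd]
            exact finrank_slice V x₀ _ (fun x hx => hD'V x (hAD hx.1)) p.1 p.2 hp
              (fun x hx => hx.2) hne
          refine ih _ hlt (E × F) _ (hSK.image (ContinuousLinearMap.inl ℂ E F).continuous) ?_ rfl
          exact hSc.linear_image
            ((ContinuousLinearMap.inl ℂ E F).restrictScalars ℝ : E →L[ℝ] (E × F)).toLinearMap
      have hA' : Approx F Y (A ∩ {z | p.1 z ≤ p.2}) := glue F hSp A hAK hAc p.1 p.2 hA hS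
      have := ihL (fun q hq => hL q (List.mem_cons_of_mem _ hq)) (A ∩ {z | p.1 z ≤ p.2})
        (inter_subset_left.trans hAD)
        (hAK.inter_right (isClosed_le p.1.continuous continuous_const))
        (hAc.inter (convex_le p.1 p.2)) hA'
      have he : A ∩ {y | ∀ q ∈ p :: L, q.1 y ≤ q.2} =
          A ∩ {z | p.1 z ≤ p.2} ∩ {y | ∀ q ∈ L, q.1 y ≤ q.2} := by
        ext y
        simp only [mem_inter_iff, mem_setOf_eq, List.forall_mem_cons, and_assoc]
      rwa [he]
  intro U hU hXU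
  obtain ⟨L, hL1, hL2⟩ := exists_halfspaces X hX hXc (D' \ U) (hD'K.diff hU)
    (Set.disjoint_left.2 fun x hx hx' => hx'.2 (hXU hx))
  have hA := key L (fun p hp => hL1 p hp x₀ hx₀) D' subset_rfl hD'K hD'c hD'A
  obtain ⟨W, hW, hAW, hWU, happ⟩ := hA U hU (by
    rintro y ⟨hy, hy'⟩
    by_contra hyU
    obtain ⟨p, hp, hp'⟩ := hL2 y ⟨hy, hyU⟩
    exact absurd (hy' p hp) (not_le.2 hp'))
  exact ⟨W, hW, fun x hx => hAW ⟨hXD' hx, fun p hp => (hL1 p hp x hx).le⟩, hWU, happ⟩

theorem approx_convex {E : Type} [NormedAddCommGroup E] [NormedSpace ℂ E]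
    [FiniteDimensional ℂ E] (hB : BAP F Y) (hSp : HasSprays F Y) (X : Set E) (hX : IsCompact X)
    (hXc : Convex ℝ X) : Approx F Y X :=
  approx_aux F hB hSp _ E X hX hXc rfl

end Pool.Agent.Helper74.OKA.P
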