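import Pool.Agent.Helper74.OKA.P.Poly

set_option autoImplicit false

open Set Metric Topology
open scoped Manifold ContDiff

namespace Pool.Agent.Helper74.OKA.P

open Pool.Agent.Helper74.OKA

variable {G' F : Type} [NormedAddCommGroup G'] [NormedSpace ℂ G'] [FiniteDimensional ℂ G']
  [NormedAddCommGroup F] [NormedSpace ℂ F] [FiniteDimensional ℂ F]

/-- pulling back along a graph keeps holomorphy and bounds -/
theorem HB.graph {G : Type} [NormedAddCommGroup G] [NormedSpace ℂ G] {lam : G →L[ℂ] ℂ}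
    {U : Set (G × ℂ)} {P : Set G'} {M : ℝ} {a : (G × ℂ) × G' → F} (ha : HB U P M a) :
    HB {z | (z, lam z) ∈ U} P M (fun x : G × G' => a ((x.1, lam x.1), x.2)) := by
  constructor
  · refine ha.1.comp (f := fun x : G × G' => ((x.1, lam x.1), x.2)) ?_ ?_
    · refine Differentiable.differentiableOn ?_
      exact (differentiable_fst.prodMk (lam.differentiable.comp differentiable_fst)).prodMk
        differentiable_snd
    · rintro ⟨z, p⟩ ⟨hz, hp⟩
      exact ⟨hz, hp⟩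
  · rintro ⟨z, p⟩ ⟨hz, hp⟩
    exact ha.2 _ ⟨hz, hp⟩

theorem HB.smul {G : Type} [NormedAddCommGroup G] [NormedSpace ℂ G]
    {U : Set G} {P : Set G'} {M : ℝ} {a : G × G' → F} (ha : HB U P M a) {k : ℝ} (hk : 0 ≤ k) :
    HB U P (k * M) (fun x => (k : ℂ) • a x) := by
  refine ⟨ha.1.const_smul _, fun x hx => ?_⟩
  rw [norm_smul, Complex.norm_real, Real.norm_of_nonneg hk]
  exact mul_le_mul_of_nonneg_left (ha.2 x hx) hk

theorem HB.mono {G : Type} [NormedAddCommGroup G] [NormedSpace ℂ G]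
    {U : Set G} {P : Set G'} {M M' : ℝ} {a : G × G' → F} (ha : HB U P M a) (h : M ≤ M') :
    HB U P M' a := ⟨ha.1, fun x hx => (ha.2 x hx).trans h⟩

theorem isOpen_graph {G : Type} [NormedAddCommGroup G] [NormedSpace ℂ G] (lam : G →L[ℂ] ℂ)
    {U : Set (G × ℂ)} (hU : IsOpen U) : IsOpen {z | (z, lam z) ∈ U} :=
  hU.preimage (continuous_id.prodMk lam.continuous)

/-- the Cousin problem on a graph -/
theorem cp_graph {G : Type} [NormedAddCommGroup G] [NormedSpace ℂ G] (P : Set G')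
    (lam : G →L[ℂ] ℂ) (K : Set G) (K' : Set (G × ℂ)) (hKK' : ∀ z ∈ K, (z, lam z) ∈ K')
    (m : G → ℝ) (m' : G × ℂ → ℝ) (hm : ∀ z, m' (z, lam z) = m z) (t : ℝ)
    (hE : ∀ W : Set G, IsOpen W → K ∩ {z | m z = t} ⊆ W →
      ExtW F P lam W (K' ∩ {x | m' x = t}))
    (hCP : CP F P K' m' t) : CP F P K m t := by
  intro W hW hKW
  obtain ⟨V, M, hV, hKV, hM, hVW, hext⟩ := hE W hW hKW
  obtain ⟨U₁, U₂, M', hU₁, hU₂, hK₁, hK₂, hUV, hM', hsol⟩ := hCP V hV hKV
  have hM1 : 0 < M + 1 := by linarith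
  refine ⟨{z | (z, lam z) ∈ U₁}, {z | (z, lam z) ∈ U₂}, (M + 1) * M', isOpen_graph lam hU₁,
    isOpen_graph lam hU₂, ?_, ?_, ?_, by positivity, ?_⟩
  · rintro z ⟨hz, hz'⟩
    exact hK₁ ⟨hKK' z hz, by rw [mem_setOf_eq, hm]; exact hz'⟩
  · rintro z ⟨hz, hz'⟩
    exact hK₂ ⟨hKK' z hz, by rw [mem_setOf_eq, hm]; exact hz'⟩
  · rintro z ⟨hz, hz'⟩
    exact hVW z (hUV ⟨hz, hz'⟩)
  · intro c hc
    obtain ⟨C, hC, hCc, hC0⟩ := hext c hc
    have hC' : HB V P 1 (fun x => ((M + 1)⁻¹ : ℝ) • C x) := by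
      have h1 := HB.smul hC (inv_nonneg.2 hM1.le)
      refine ⟨hC.1.const_smul _, fun x hx => ?_⟩
      rw [norm_smul, Real.norm_of_nonneg (inv_nonneg.2 hM1.le)]
      calc (M + 1)⁻¹ * ‖C x‖ ≤ (M + 1)⁻¹ * (M + 1) :=
            mul_le_mul_of_nonneg_left ((hC.2 x hx).trans (by linarith)) (inv_nonneg.2 hM1.le)
        _ = 1 := inv_mul_cancel₀ hM1.ne'
    obtain ⟨a, b, ha, hb, hab, h0⟩ := hsol _ hC'
    refine ⟨fun x => ((M + 1 : ℝ) : ℂ) • a ((x.1, lam x.1), x.2),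
      fun x => ((M + 1 : ℝ) : ℂ) • b ((x.1, lam x.1), x.2), HB.smul (HB.graph ha) hM1.le,
      HB.smul (HB.graph hb) hM1.le, ?_, ?_⟩
    · rintro z ⟨hz, hz'⟩ p hp
      have h1 := hab _ ⟨hz, hz'⟩ p hp
      simp only
      rw [← smul_sub, h1, hCc z (hUV ⟨hz, hz'⟩) p hp, Complex.coe_smul, smul_smul,
        mul_inv_cancel₀ hM1.ne', one_smul]
    · intro p hp hcp
      have h1 := h0 p hp fun x hx => by
        show ((M + 1)⁻¹ : ℝ) • C (x, p) = 0
        rw [hC0 p hp hcp x hx, smul_zero]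
      constructor
      · intro z hz
        show _ • a ((z, lam z), p) = 0
        rw [h1.1 _ hz, smul_zero]
      · intro z hz
        show _ • b ((z, lam z), p) = 0
        rw [h1.2 _ hz, smul_zero]

/-- nonlinear splitting on a graph -/
theorem ns_graph {G : Type} [NormedAddCommGroup G] [NormedSpace ℂ G]
    (lam : G →L[ℂ] ℂ) (K : Set G) (K' : Set (G × ℂ)) (hKK' : ∀ z ∈ K, (z, lam z) ∈ K')
    (m : G → ℝ) (m' : G × ℂ → ℝ) (hm : ∀ z, m' (z, lam z) = m z) (t : ℝ)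
    (hE : ∀ W : Set G, IsOpen W → K ∩ {z | m z = t} ⊆ W →
      ExtW F (ball (0 : F) 1) lam W (K' ∩ {x | m' x = t}))
    (hNS : NS F K' m' t) : NS F K m t := by
  intro W hW hKW
  obtain ⟨V, M, hV, hKV, hM, hVW, hext⟩ := hE W hW hKW
  obtain ⟨U₁, U₂, hU₁, hU₂, hK₁, hK₂, hUV, hsol⟩ := hNS V hV hKV
  have hM1 : 0 < M + 1 := by linarith
  refine ⟨{z | (z, lam z) ∈ U₁}, {z | (z, lam z) ∈ U₂}, isOpen_graph lam hU₁,
    isOpen_graph lam hU₂, ?_, ?_, ?_, ?_⟩
  · rintro z ⟨hz, hz'⟩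
    exact hK₁ ⟨hKK' z hz, by rw [mem_setOf_eq, hm]; exact hz'⟩
  · rintro z ⟨hz, hz'⟩
    exact hK₂ ⟨hKK' z hz, by rw [mem_setOf_eq, hm]; exact hz'⟩
  · rintro z ⟨hz, hz'⟩
    exact hVW z (hUV ⟨hz, hz'⟩)
  · intro ρ hρ
    obtain ⟨δ, hδ, hsolδ⟩ := hsol (min ρ (1 / 4)) (lt_min hρ (by norm_num))
    refine ⟨δ / (M + 1), by positivity, fun η hη => ?_⟩
    have hδM : 0 < δ / (M + 1) := by positivity
    -- normalise
    have hη1 : HB W (ball 0 1) 1 (fun x => (((δ / (M + 1))⁻¹ : ℝ) : ℂ) • η x) := by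
      have := HB.smul hη (inv_nonneg.2 hδM.le)
      rwa [inv_mul_cancel₀ hδM.ne'] at this
    obtain ⟨C, hC, hCc, hC0⟩ := hext _ hη1
    have hC' : HB V (ball 0 1) δ (fun x => ((δ / (M + 1) : ℝ) : ℂ) • C x) := by
      refine HB.mono (HB.smul hC hδM.le) ?_
      rw [div_mul_eq_mul_div, div_le_iff₀ hM1]
      nlinarith
    obtain ⟨a, b, ha, hb, hab, h0⟩ := hsolδ _ hC'
    refine ⟨fun x => a ((x.1, lam x.1), x.2), fun x => b ((x.1, lam x.1), x.2),
      HB.mono (HB.graph ha) (min_le_left _ _), HB.mono (HB.graph hb) (min_le_left _ _), ?_, ?_⟩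
    · rintro z ⟨hz, hz'⟩ s hs
      have h1 := hab _ ⟨hz, hz'⟩ s hs
      simp only at h1 ⊢
      rw [h1]
      have h2 : s + a ((z, lam z), s) ∈ ball (0 : F) 1 := by
        rw [mem_ball_zero_iff] at hs ⊢
        have h3 := (ha.2 ((z, lam z), s) ⟨hz, mem_ball_zero_iff.2 hs⟩).trans (min_le_right _ _)
        calc ‖s + a ((z, lam z), s)‖ ≤ ‖s‖ + ‖a ((z, lam z), s)‖ := norm_add_le _ _
          _ < 1 := by linarith
      rw [hCc z (hUV ⟨hz, hz'⟩) _ h2, smul_smul, ← Complex.ofReal_mul, mul_inv_cancel₀ hδM.ne',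
        Complex.ofReal_one, one_smul]
    · intro hη0
      have h1 := h0 fun x hx => by
        show _ • C (x, 0) = 0
        rw [hC0 0 (mem_ball_self one_pos) (fun z hz => by rw [hη0 z hz, smul_zero]) x hx, smul_zero]
      exact ⟨fun z hz => h1.1 _ hz, fun z hz => h1.2 _ hz⟩

theorem cp_poly (P : Set G') (hP : IsOpen P) (n : ℕ) :
    ∀ (G : Type) [NormedAddCommGroup G] [NormedSpace ℂ G] [FiniteDimensional ℂ G]
      (ι : Type) [Fintype ι] [DecidableEq ι] (e : ι → G →L[ℂ] ℂ) (v : ι → G) (Q : ι → Set ℂ)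
      (L : List ((G →L[ℂ] ℂ) × Set ℂ)), IsCoord e v → (∀ i, IsRect (Q i)) →
      (∀ x ∈ L, IsRect x.2) → L.length = n → ∀ (i : ι) (t : ℝ),
      CP F P (Poly e Q L) (fun z => (e i z).re) t ∧
        CP F P (Poly e Q L) (fun z => (e i z).im) t := by
  induction n with
  | zero =>
    intro G _ _ _ ι _ _ e v Q L he hQ hL hlen i t
    rw [List.length_eq_zero_iff] at hlen
    subst hlen
    exact cp_box e v he Q hQ P hP i t
  | succ n ih =>
    intro G _ _ _ ι _ _ e v Q L he hQ hL hlen i t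
    obtain ⟨x₀, L', rfl⟩ : ∃ x₀ L', L = x₀ :: L' := by
      cases L with
      | nil => simp at hlen
      | cons x₀ L' => exact ⟨x₀, L', rfl⟩
    have hlen' : L'.length = n := by simpa using hlen
    have hLo : ∀ x ∈ Lo L', IsRect x.2 := by
      intro x hx
      obtain ⟨y, hy, rfl⟩ := List.mem_map.1 hx
      exact hL y (List.mem_cons_of_mem _ hy)
    have hQo : ∀ j, IsRect (Qo Q x₀.2 j) := by
      rintro (_ | j)
      · exact hL x₀ List.mem_cons_self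
      · exact hQ j
    have hCP : ∀ Q : Option ι → Set ℂ, (∀ i, IsRect (Q i)) → ∀ (j : Option ι) (s : ℝ),
        CP F P (Poly (eo e) Q (Lo L')) (fun z => (eo e j z).re) s ∧
          CP F P (Poly (eo e) Q (Lo L')) (fun z => (eo e j z).im) s := fun Q hQ j s =>
      ih (G × ℂ) (Option ι) (eo e) (vo v) Q (Lo L') (isCoord_eo he) hQ hLo
        (by rw [Lo, List.length_map, hlen']) j s
    have hK : ∀ z ∈ Poly e Q (x₀ :: L'), (z, x₀.1 z) ∈ Poly (eo e) (Qo Q x₀.2) (Lo L') :=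
      fun z hz => (mem_poly_o e Q x₀.2 L' _).2 ((mem_poly_cons e Q x₀ L' z).1 hz)
    constructor
    · exact cp_graph P x₀.1 _ _ hK _ (fun x => (eo e (some i) x).re) (fun z => rfl) t
        (fun W hW hKW => reduction P hP e v he Q hQ x₀ L' hL hCP i t Complex.re (Or.inl rfl) W hW
          hKW) (hCP _ hQo (some i) t).1
    · exact cp_graph P x₀.1 _ _ hK _ (fun x => (eo e (some i) x).im) (fun z => rfl) t
        (fun W hW hKW => reduction P hP e v he Q hQ x₀ L' hL hCP i t Complex.im (Or.inr rfl) W hW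
          hKW) (hCP _ hQo (some i) t).2

end Pool.Agent.Helper74.OKA.P
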