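import Pool.Agent.Helper74.OKA.P.A11
import Pool.Agent.Helper74.OKA.St.A6

set_option autoImplicit false

open Set Metric Topology
open scoped Manifold ContDiff

namespace Pool.Agent.Helper74.OKA.P

open Pool.Agent.Helper74.OKA

variable {F : Type} [NormedAddCommGroup F] [NormedSpace ℂ F] [FiniteDimensional ℂ F]

theorem ns_poly (n : ℕ) :
    ∀ (G : Type) [NormedAddCommGroup G] [NormedSpace ℂ G] [FiniteDimensional ℂ G]
      (ι : Type) [Fintype ι] [DecidableEq ι] (e : ι → G →L[ℂ] ℂ) (v : ι → G) (Q : ι → Set ℂ)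
      (L : List ((G →L[ℂ] ℂ) × Set ℂ)), IsCoord e v → (∀ i, IsRect (Q i)) →
      (∀ x ∈ L, IsRect x.2) → L.length = n → ∀ (i : ι) (t : ℝ),
      NS F (Poly e Q L) (fun z => (e i z).re) t := by
  induction n with
  | zero =>
    intro G _ _ _ ι _ _ e v Q L he hQ hL hlen i t
    rw [List.length_eq_zero_iff] at hlen
    subst hlen
    exact ns_box e v he Q hQ i t
  | succ n ih =>
    intro G _ _ _ ι _ _ e v Q L he hQ hL hlen i t
    obtain ⟨x₀, L', rfl⟩ : ∃ x₀ L', L = x₀ :: L' := by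
      cases L with
      | nil => simp at hlen
      | cons x₀ L' => exact ⟨x₀, L', rfl⟩
    have hlen' : L'.length = n := by simpa using hlen
    have hLo : ∀ x ∈ Lo L', IsRect x.2 := by
      intro x hx
      obtain ⟨y, hy, rfl⟩ := List.mem_map.1 hx
      exact hL y (List.mem_cons_of_mem _ hy)
    have hQo : ∀ j, IsRect (Qo Q x₀.2 j) := by
      rintro (_ | j)
      · exact hL x₀ List.mem_cons_self
      · exact hQ j
    have hCP : ∀ Q : Option ι → Set ℂ, (∀ i, IsRect (Q i)) → ∀ (j : Option ι) (s : ℝ),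
        CP F (ball (0 : F) 1) (Poly (eo e) Q (Lo L')) (fun z => (eo e j z).re) s ∧
          CP F (ball (0 : F) 1) (Poly (eo e) Q (Lo L')) (fun z => (eo e j z).im) s :=
      fun Q hQ j s => cp_poly (F := F) (ball (0 : F) 1) isOpen_ball n
        (G × ℂ) (Option ι) (eo e) (vo v) Q (Lo L') (isCoord_eo he) hQ hLo
        (by rw [Lo, List.length_map, hlen']) j s
    have hK : ∀ z ∈ Poly e Q (x₀ :: L'), (z, x₀.1 z) ∈ Poly (eo e) (Qo Q x₀.2) (Lo L') :=
      fun z hz => (mem_poly_o e Q x₀.2 L' _).2 ((mem_poly_cons e Q x₀ L' z).1 hz)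
    exact ns_graph x₀.1 _ _ hK _ (fun x => (eo e (some i) x).re) (fun z => rfl) t
      (fun W hW hKW => reduction (ball (0 : F) 1) isOpen_ball e v he Q hQ x₀ L' hL hCP i t
        Complex.re (Or.inl rfl) W hW hKW)
      (ih (G × ℂ) (Option ι) (eo e) (vo v) _ (Lo L') (isCoord_eo he) hQo hLo
        (by rw [Lo, List.length_map, hlen']) (some i) t)

end Pool.Agent.Helper74.OKA.P
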