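import Pool.Agent.Helper74.OKA.St.A5
import Pool.Agent.Helper74.OKA.St.A8
import Pool.Agent.Helper74.OKA.St.A9
import Pool.Agent.Helper74.OKA.St.A10

set_option autoImplicit false

open Set Metric Topology
open scoped Manifold ContDiff

namespace Pool.Agent.Helper74.OKA.P

open Pool.Agent.Helper74.OKA

theorem isClosed_rect {Q : Set ℂ} (hQ : IsRect Q) : IsClosed Q := by
  obtain ⟨a, b, c, d, rfl⟩ := hQ
  refine (isClosed_le continuous_const Complex.continuous_re).inter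
    ((isClosed_le Complex.continuous_re continuous_const).inter
      ((isClosed_le continuous_const Complex.continuous_im).inter
        (isClosed_le Complex.continuous_im continuous_const)))

theorem rect_bdd {Q : Set ℂ} (hQ : IsRect Q) : ∃ B : ℝ, 0 ≤ B ∧ ∀ w ∈ Q, ‖w‖ ≤ B := by
  obtain ⟨a, b, c, d, rfl⟩ := hQ
  refine ⟨(|a| + |b|) + (|c| + |d|), by positivity, ?_⟩
  rintro w ⟨h1, h2, h3, h4⟩
  refine (Complex.norm_le_abs_re_add_abs_im w).trans (add_le_add ?_ ?_)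
  · rw [abs_le]
    constructor
    · linarith [neg_abs_le a, abs_nonneg b]
    · linarith [le_abs_self b, abs_nonneg a]
  · rw [abs_le]
    constructor
    · linarith [neg_abs_le c, abs_nonneg d]
    · linarith [le_abs_self d, abs_nonneg c]

theorem rect_inter_re_le {Q : Set ℂ} (hQ : IsRect Q) (s : ℝ) : IsRect (Q ∩ {w | w.re ≤ s}) := by
  obtain ⟨a, b, c, d, rfl⟩ := hQ
  refine ⟨a, min b s, c, d, ?_⟩
  ext w
  simp only [mem_inter_iff, mem_setOf_eq, le_min_iff]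
  tauto

theorem rect_inter_le_re {Q : Set ℂ} (hQ : IsRect Q) (s : ℝ) : IsRect (Q ∩ {w | s ≤ w.re}) := by
  obtain ⟨a, b, c, d, rfl⟩ := hQ
  refine ⟨max a s, b, c, d, ?_⟩
  ext w
  simp only [mem_inter_iff, mem_setOf_eq, max_le_iff]
  tauto

theorem rect_inter_im_le {Q : Set ℂ} (hQ : IsRect Q) (s : ℝ) : IsRect (Q ∩ {w | w.im ≤ s}) := by
  obtain ⟨a, b, c, d, rfl⟩ := hQ
  refine ⟨a, b, c, min d s, ?_⟩
  ext w
  simp only [mem_inter_iff, mem_setOf_eq, le_min_iff]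
  tauto

theorem rect_inter_le_im {Q : Set ℂ} (hQ : IsRect Q) (s : ℝ) : IsRect (Q ∩ {w | s ≤ w.im}) := by
  obtain ⟨a, b, c, d, rfl⟩ := hQ
  refine ⟨a, b, max c s, d, ?_⟩
  ext w
  simp only [mem_inter_iff, mem_setOf_eq, max_le_iff]
  tauto

section

variable {G : Type} [NormedAddCommGroup G] [NormedSpace ℂ G]
  {ι : Type} [Fintype ι] [DecidableEq ι]

theorem poly_inter (e : ι → G →L[ℂ] ℂ) (Q : ι → Set ℂ) (L : List ((G →L[ℂ] ℂ) × Set ℂ)) (j : ι)
    (S : Set ℂ) : Poly e Q L ∩ {x | e j x ∈ S} = Poly e (Function.update Q j (Q j ∩ S)) L := by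
  ext x
  simp only [Poly, mem_inter_iff, mem_setOf_eq]
  constructor
  · rintro ⟨⟨h1, h2⟩, h3⟩
    refine ⟨fun i => ?_, h2⟩
    by_cases hi : i = j
    · subst hi
      rw [Function.update_self]
      exact ⟨h1 i, h3⟩
    · rw [Function.update_of_ne hi]
      exact h1 i
  · rintro ⟨h1, h2⟩
    refine ⟨⟨fun i => ?_, h2⟩, ?_⟩
    · have := h1 i
      by_cases hi : i = j
      · subst hi
        rw [Function.update_self] at this
        exact this.1
      · rwa [Function.update_of_ne hi] at this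
    · have := h1 j
      rw [Function.update_self] at this
      exact this.2

/-- polyhedra with the functionals `e` and `L` -/
def ClP (e : ι → G →L[ℂ] ℂ) (L : List ((G →L[ℂ] ℂ) × Set ℂ)) (K : Set G) : Prop :=
  ∃ Q : ι → Set ℂ, (∀ i, IsRect (Q i)) ∧ K = Poly e Q L

theorem ClP.inter {e : ι → G →L[ℂ] ℂ} {L : List ((G →L[ℂ] ℂ) × Set ℂ)} {K : Set G}
    (h : ClP e L K) (j : ι) (S : Set ℂ) (hS : ∀ Q, IsRect Q → IsRect (Q ∩ S)) :
    ClP e L (K ∩ {x | e j x ∈ S}) := by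
  obtain ⟨Q, hQ, rfl⟩ := h
  refine ⟨Function.update Q j (Q j ∩ S), fun i => ?_, poly_inter e Q L j S⟩
  by_cases hi : i = j
  · subst hi
    rw [Function.update_self]
    exact hS _ (hQ i)
  · rw [Function.update_of_ne hi]
    exact hQ i

theorem isClosed_poly (e : ι → G →L[ℂ] ℂ) (Q : ι → Set ℂ) (L : List ((G →L[ℂ] ℂ) × Set ℂ))
    (hQ : ∀ i, IsRect (Q i)) (hL : ∀ x ∈ L, IsRect x.2) : IsClosed (Poly e Q L) := by
  have : Poly e Q L = (⋂ i, (e i) ⁻¹' (Q i)) ∩ ⋂ x ∈ L, (x.1 : G → ℂ) ⁻¹' x.2 := by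
    ext z
    simp [Poly]
  rw [this]
  refine (isClosed_iInter fun i => (isClosed_rect (hQ i)).preimage (e i).continuous).inter ?_
  exact isClosed_biInter fun x hx => (isClosed_rect (hL x hx)).preimage x.1.continuous

theorem isCompact_poly [FiniteDimensional ℂ G] {e : ι → G →L[ℂ] ℂ} {v : ι → G}
    (he : IsCoord e v) (Q : ι → Set ℂ)
    (L : List ((G →L[ℂ] ℂ) × Set ℂ))
    (hQ : ∀ i, IsRect (Q i)) (hL : ∀ x ∈ L, IsRect x.2) : IsCompact (Poly e Q L) := by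
  haveI : ProperSpace G := FiniteDimensional.proper ℂ G
  refine Metric.isCompact_of_isClosed_isBounded (isClosed_poly e Q L hQ hL) ?_
  choose B hB0 hB using fun i => rect_bdd (hQ i)
  refine (isBounded_iff_forall_norm_le (s := Poly e Q L)).2 ⟨∑ i, B i * ‖v i‖, fun z hz => ?_⟩
  rw [← he.2 z]
  refine (norm_sum_le _ _).trans (Finset.sum_le_sum fun i _ => ?_)
  rw [norm_smul]
  exact mul_le_mul_of_nonneg_right (hB i _ (hz.1 i)) (norm_nonneg _)

theorem exists_coord_dist {e : ι → G →L[ℂ] ℂ} {v : ι → G} (he : IsCoord e v) (δ : ℝ)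
    (hδ : 0 < δ) : ∃ δ' > 0, ∀ x y : G, (∀ i, |(e i x).re - (e i y).re| ≤ δ' ∧
      |(e i x).im - (e i y).im| ≤ δ') → dist x y ≤ δ := by
  set S : ℝ := ∑ i, ‖v i‖ with hS
  have hS0 : 0 ≤ S := Finset.sum_nonneg fun i _ => norm_nonneg _
  refine ⟨δ / (2 * (S + 1)), by positivity, fun x y h => ?_⟩
  rw [dist_eq_norm, ← he.2 (x - y)]
  refine (norm_sum_le _ _).trans ?_
  have h1 : ∀ i, ‖e i (x - y) • v i‖ ≤ (δ / (S + 1)) * ‖v i‖ := by
    intro i
    rw [norm_smul]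
    refine mul_le_mul_of_nonneg_right ?_ (norm_nonneg _)
    refine (Complex.norm_le_abs_re_add_abs_im _).trans ?_
    rw [map_sub, Complex.sub_re, Complex.sub_im]
    refine (add_le_add (h i).1 (h i).2).trans (le_of_eq ?_)
    field_simp
    ring
  refine (Finset.sum_le_sum fun i _ => h1 i).trans ?_
  rw [← Finset.mul_sum, ← hS, div_mul_eq_mul_div, div_le_iff₀ (by positivity)]
  nlinarith

end

variable {G' F : Type} [NormedAddCommGroup G'] [NormedSpace ℂ G'] [FiniteDimensional ℂ G']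
  [NormedAddCommGroup F] [NormedSpace ℂ F] [FiniteDimensional ℂ F]

/-- extension from the graph for polyhedra, from the Cousin property -/
theorem ext_poly {G : Type} [NormedAddCommGroup G] [NormedSpace ℂ G] [FiniteDimensional ℂ G]
    (lam : G →L[ℂ] ℂ) (W : Set G) (hW : IsOpen W) (P : Set G') (hP : IsOpen P)
    {ι : Type} [Fintype ι] [DecidableEq ι] (e : ι → (G × ℂ) →L[ℂ] ℂ) (v : ι → G × ℂ)
    (he : IsCoord e v) (L : List (((G × ℂ) →L[ℂ] ℂ) × Set ℂ)) (hL : ∀ x ∈ L, IsRect x.2)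
    (hCP : ∀ Q : ι → Set ℂ, (∀ i, IsRect (Q i)) → ∀ (j : ι) (s : ℝ),
      CP F P (Poly e Q L) (fun z => (e j z).re) s ∧ CP F P (Poly e Q L) (fun z => (e j z).im) s)
    (K₀ : Set (G × ℂ)) (hK₀ : ClP e L K₀) (h : ∀ z, (z, lam z) ∈ K₀ → z ∈ W) :
    ExtW F P lam W K₀ := by
  have hcomp : ∀ K, ClP e L K → IsCompact K := by
    rintro K ⟨Q, hQ, rfl⟩
    exact isCompact_poly he Q L hQ hL
  obtain ⟨δ, hδ, hloc⟩ := ext_local (F := F) lam W hW K₀ (hcomp K₀ hK₀) h P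
  obtain ⟨δ', hδ', hdist⟩ := exists_coord_dist he δ hδ
  set Ms : List (G × ℂ → ℝ) := (Finset.univ : Finset ι).toList.map (fun i z => (e i z).re) ++
    (Finset.univ : Finset ι).toList.map (fun i z => (e i z).im) with hMs
  have hmem : ∀ m, m ∈ Ms ↔ (∃ i, (fun z => (e i z).re) = m) ∨ ∃ i, (fun z => (e i z).im) = m := by
    intro m
    simp [hMs, List.mem_append, List.mem_map]
  refine bisect_induction (ClP e L) (ExtW F P lam W) K₀ Ms δ' hδ' ?_ ?_ ?_ ?_ hK₀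
  · intro K hK m hm t
    rcases (hmem m).1 hm with ⟨i, rfl⟩ | ⟨i, rfl⟩
    · exact ⟨hK.inter i {w | w.re ≤ t} fun Q hQ => rect_inter_re_le hQ t,
        hK.inter i {w | t ≤ w.re} fun Q hQ => rect_inter_le_re hQ t⟩
    · exact ⟨hK.inter i {w | w.im ≤ t} fun Q hQ => rect_inter_im_le hQ t,
        hK.inter i {w | t ≤ w.im} fun Q hQ => rect_inter_le_im hQ t⟩
  · intro K hK hKK₀ hsm
    refine hloc K hKK₀ fun x hx y hy => hdist x y fun i => ⟨?_, ?_⟩
    · exact hsm (fun z => (e i z).re) ((hmem _).2 (Or.inl ⟨i, rfl⟩)) x hx y hy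
    · exact hsm (fun z => (e i z).im) ((hmem _).2 (Or.inr ⟨i, rfl⟩)) x hx y hy
  · intro K hK hKK₀ m hm t h1 h2
    have hKc := hcomp K hK
    obtain ⟨Q, hQ, rfl⟩ := hK
    rcases (hmem m).1 hm with ⟨i, rfl⟩ | ⟨i, rfl⟩
    · exact ext_merge lam W hW P hP _ hKc _
        (Complex.continuous_re.comp (e i).continuous) t h1 h2 (hCP Q hQ i t).1
    · exact ext_merge lam W hW P hP _ hKc _
        (Complex.continuous_im.comp (e i).continuous) t h1 h2 (hCP Q hQ i t).2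
  · intro m hm
    have hmc : Continuous m := by
      rcases (hmem m).1 hm with ⟨i, rfl⟩ | ⟨i, rfl⟩
      · exact Complex.continuous_re.comp (e i).continuous
      · exact Complex.continuous_im.comp (e i).continuous
    obtain ⟨B, hB⟩ := ((hcomp K₀ hK₀).image hmc).isBounded.exists_norm_le
    exact ⟨B, fun x hx => hB _ (mem_image_of_mem _ hx)⟩

/-! ### coordinates on `G × ℂ` -/

section

variable {G : Type} [NormedAddCommGroup G] [NormedSpace ℂ G]
  {ι : Type} [Fintype ι] [DecidableEq ι]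

/-- coordinates on `G × ℂ` -/
noncomputable def eo (e : ι → G →L[ℂ] ℂ) : Option ι → (G × ℂ) →L[ℂ] ℂ
  | none => ContinuousLinearMap.snd ℂ G ℂ
  | some i => (e i).comp (ContinuousLinearMap.fst ℂ G ℂ)

/-- basis of `G × ℂ` -/
def vo (v : ι → G) : Option ι → G × ℂ
  | none => (0, 1)
  | some i => (v i, 0)

/-- rectangles on `G × ℂ` -/
def Qo (Q : ι → Set ℂ) (R : Set ℂ) : Option ι → Set ℂ
  | none => R
  | some i => Q i

theorem isCoord_eo {e : ι → G →L[ℂ] ℂ} {v : ι → G} (he : IsCoord e v) :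
    IsCoord (eo e) (vo v) := by
  constructor
  · rintro (_ | i) (_ | j)
    · simp [eo, vo]
    · simp [eo, vo]
    · simp [eo, vo]
    · simp only [eo, vo, ContinuousLinearMap.comp_apply, ContinuousLinearMap.coe_fst',
        Option.some.injEq]
      exact he.1 i j
  · rintro ⟨z, w⟩
    rw [Fintype.sum_option]
    have h1 : ∑ i, eo e (some i) (z, w) • vo v (some i) = (z, 0) := by
      simp only [eo, vo, ContinuousLinearMap.comp_apply, ContinuousLinearMap.coe_fst',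
        Prod.smul_mk, smul_zero]
      have h2 := he.2 z
      refine Prod.ext ?_ ?_
      · rw [Prod.fst_sum]
        exact h2
      · rw [Prod.snd_sum]
        simp
    rw [h1]
    simp [eo, vo]

/-- functionals on `G × ℂ` -/
noncomputable def Lo (L : List ((G →L[ℂ] ℂ) × Set ℂ)) : List (((G × ℂ) →L[ℂ] ℂ) × Set ℂ) :=
  L.map fun x => (x.1.comp (ContinuousLinearMap.fst ℂ G ℂ), x.2)

theorem mem_poly_o (e : ι → G →L[ℂ] ℂ) (Q : ι → Set ℂ) (R : Set ℂ)
    (L : List ((G →L[ℂ] ℂ) × Set ℂ)) (x : G × ℂ) :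
    x ∈ Poly (eo e) (Qo Q R) (Lo L) ↔ x.1 ∈ Poly e Q L ∧ x.2 ∈ R := by
  simp only [Poly, mem_setOf_eq, Lo, List.forall_mem_map, Option.forall, eo, Qo,
    ContinuousLinearMap.coe_snd', ContinuousLinearMap.comp_apply, ContinuousLinearMap.coe_fst']
  tauto

theorem mem_poly_cons (e : ι → G →L[ℂ] ℂ) (Q : ι → Set ℂ) (x₀ : (G →L[ℂ] ℂ) × Set ℂ)
    (L : List ((G →L[ℂ] ℂ) × Set ℂ)) (z : G) :
    z ∈ Poly e Q (x₀ :: L) ↔ z ∈ Poly e Q L ∧ x₀.1 z ∈ x₀.2 := by
  simp only [Poly, mem_setOf_eq, List.forall_mem_cons]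
  tauto

end

/-- the reduction of a polyhedron with one more functional to a graph -/
theorem reduction {G : Type} [NormedAddCommGroup G] [NormedSpace ℂ G] [FiniteDimensional ℂ G]
    (P : Set G') (hP : IsOpen P)
    {ι : Type} [Fintype ι] [DecidableEq ι] (e : ι → G →L[ℂ] ℂ) (v : ι → G) (he : IsCoord e v)
    (Q : ι → Set ℂ) (hQ : ∀ i, IsRect (Q i)) (x₀ : (G →L[ℂ] ℂ) × Set ℂ)
    (L : List ((G →L[ℂ] ℂ) × Set ℂ)) (hL : ∀ x ∈ x₀ :: L, IsRect x.2)
    (hCP : ∀ Q : Option ι → Set ℂ, (∀ i, IsRect (Q i)) → ∀ (j : Option ι) (s : ℝ),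
      CP F P (Poly (eo e) Q (Lo L)) (fun z => (eo e j z).re) s ∧
        CP F P (Poly (eo e) Q (Lo L)) (fun z => (eo e j z).im) s)
    (i : ι) (t : ℝ) (m : ℂ → ℝ) (hm : m = Complex.re ∨ m = Complex.im) (W : Set G)
    (hW : IsOpen W) (hKW : Poly e Q (x₀ :: L) ∩ {z | m (e i z) = t} ⊆ W) :
    ExtW F P x₀.1 W (Poly (eo e) (Qo Q x₀.2) (Lo L) ∩ {z | m (eo e (some i) z) = t}) := by
  have hQo : ∀ j, IsRect (Qo Q x₀.2 j) := by
    rintro (_ | j)
    · exact hL x₀ List.mem_cons_self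
    · exact hQ j
  have hLo : ∀ x ∈ Lo L, IsRect x.2 := by
    intro x hx
    obtain ⟨y, hy, rfl⟩ := List.mem_map.1 hx
    exact hL y (List.mem_cons_of_mem _ hy)
  refine ext_poly x₀.1 W hW P hP (eo e) (vo v) (isCoord_eo he) (Lo L) hLo hCP _ ?_ ?_
  · have h0 : ClP (eo e) (Lo L) (Poly (eo e) (Qo Q x₀.2) (Lo L)) := ⟨_, hQo, rfl⟩
    have h1 : ClP (eo e) (Lo L) (Poly (eo e) (Qo Q x₀.2) (Lo L) ∩
        {z | eo e (some i) z ∈ {w | m w ≤ t}} ∩ {z | eo e (some i) z ∈ {w | t ≤ m w}}) := by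
      rcases hm with rfl | rfl
      · exact (h0.inter _ _ fun Q hQ => rect_inter_re_le hQ t).inter _ _
          fun Q hQ => rect_inter_le_re hQ t
      · exact (h0.inter _ _ fun Q hQ => rect_inter_im_le hQ t).inter _ _
          fun Q hQ => rect_inter_le_im hQ t
    convert h1 using 1
    ext z
    simp only [mem_inter_iff, mem_setOf_eq, and_assoc, le_antisymm_iff]
  · rintro z ⟨h1, h2⟩
    rw [mem_poly_o] at h1
    exact hKW ⟨(mem_poly_cons e Q x₀ L z).2 h1, h2⟩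

end Pool.Agent.Helper74.OKA.P
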